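import Pool.Agent.X264.WS.Main

set_option autoImplicit false

namespace Pool.Agent.Results.MP_cab3fc_nt.EverywhereUnramified

open Pool.Agent.X264.WS

/-- Let `p ≠ 2, 5` be a prime, `L₀` a totally real field which is Galois over `ℚ` with solvable Galois
group, and `S₀` a finite set of primes with `p ∈ S₀`. Given the known theorems in `IsKnown`, the weak
Serre conjecture for `p` (over all totally real fields) is equivalent to the following special case:
every totally odd `ρ̄ : Gal(ℚ̄/F) → GL₂(𝔽̄_p)` with nonsolvable image, over a totally real field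
`F ⊇ L₀`, which is unramified everywhere, trivial on the decomposition groups above `S₀` and has
determinant `ε̄⁻¹`, comes from a form of level `(1)`, parallel weight 2 and trivial character. -/
theorem result (p : ℕ) [Fact p.Prime] (W : Forms (AlgebraicClosure ℚ_[p]))
    (π : (integralClosure ℤ_[p] (AlgebraicClosure ℚ_[p])).toSubring →+* AlgebraicClosure (ZMod p))
    (ε : Γ →* (ZMod p)ˣ) (K : W.IsKnown π ε) (L₀ : Fld) (hL : SolvableOverQ L₀) (S₀ : Finset ℕ) (hp : p ∈ S₀) :
    W.WeakSerre π ↔ W.SpecialCase π ε L₀ S₀ :=
  Forms.main K hL hp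

end Pool.Agent.Results.MP_cab3fc_nt.EverywhereUnramified
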