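import Pool.Agent.X264.WS.Good

set_option autoImplicit false

namespace Pool.Agent.Results.MP_cab3fc_nt.GoodReductionSystems

open Pool.Agent.X264.WS

/-- Given the known theorems in `IsKnownGood`: for every totally real field `L₀` which is Galois over
`ℚ` with solvable Galois group, the weak Serre conjecture over all totally real fields for all primes
`p ≠ 2, 5` is equivalent to: every compatible system over a totally real field `F ⊇ L₀` (potentially
automorphic, totally odd, of Hodge-Tate weights 0 and 1) with everywhere good reduction and inverse
cyclotomic determinant comes from forms of level `(1)`, parallel weight 2 and trivial character. -/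
theorem result (T : Family) (good : ∀ {F : Fld}, T.Sys F → Prop) (K : T.IsKnownGood @good)
    (L₀ : Fld) (hL : SolvableOverQ L₀) : T.WeakSerre ↔ T.GoodCase @good L₀ :=
  Family.mainGood K hL

end Pool.Agent.Results.MP_cab3fc_nt.GoodReductionSystems
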