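import Pool.Agent.X264.WS.Family

set_option autoImplicit false

namespace Pool.Agent.Results.MP_cab3fc_nt.PrimeFieldCoefficients

open Pool.Agent.X264.WS

/-- Given the known theorems in `IsKnown`: for every `N₀ ≥ 5`, every totally real field `L₀` which is
Galois over `ℚ` with solvable Galois group and every finite set `S₀` of primes, the weak Serre
conjecture over all totally real fields for all primes `p ≠ 2, 5` is equivalent to the following
special case for all primes `ℓ > N₀`: every totally odd `ρ̄ : Gal(ℚ̄/F) → GL₂(𝔽_ℓ)` over a totally real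
field `F` containing `L₀` and `ℚ(ζ_ℓ)⁺`, with image the group of all matrices of determinant `± 1`,
unramified everywhere, trivial on the decomposition groups above `ℓ` and `S₀`, with determinant `ε̄⁻¹`,
comes from a form of level `(1)`, parallel weight 2 and trivial character. -/
theorem result (T : Family) (K : T.IsKnown) (N₀ : ℕ) (hN : 5 ≤ N₀) (L₀ : Fld)
    (hL : SolvableOverQ L₀) (S₀ : Finset ℕ) : T.WeakSerre ↔ ∀ (ℓ : ℕ) [Fact ℓ.Prime], N₀ < ℓ →
      (T.W ℓ).PrimeFieldCase (T.π ℓ) (T.ε ℓ) L₀ S₀ :=
  Family.main K hN hL S₀

end Pool.Agent.Results.MP_cab3fc_nt.PrimeFieldCoefficients
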